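import Pool.Agent.Helper17.CT.Piece

/-!
FS-9: relabelling of the colours (project MP_16e137_co, owner helper17).
-/

set_option autoImplicit false

namespace Pool.Agent.Helper17.CT

/-- FS-9: relabelling of the colours -/
theorem data_perm {I : Type} {k : ℕ} {P : Inner I k} (D : Data P) (σ : Equiv.Perm (Fin 3)) :
    ∃ D' : Data P, ∀ x, D'.γ x = σ (D.γ x) := by
  have hne : ∀ (y i : Fin 3), σ y ≠ i ↔ y ≠ σ.symm i := by
    intro y i
    rw [not_iff_not, Equiv.eq_symm_apply]
  refine ⟨{
    Ω := D.Ω
    fin := D.fin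
    b := D.b
    ε := D.ε
    inv := D.inv
    eps := D.eps
    nc := D.nc
    par := D.par
    γ := fun x => σ (D.γ x)
    γs := fun x h => D.γs x (σ.injective h)
    γe := fun x hx => by rw [D.γe x hx]
    T := fun i => D.T (σ.symm i)
    comp := ?_
    ham := ?_
    all := ?_
    cst := ?_ }, fun x => rfl⟩
  · intro i j
    obtain ⟨h1, h2⟩ := D.comp (σ.symm i) j
    refine ⟨?_, ?_⟩
    · rw [hne]; exact h1
    · intro h
      rw [← h2 h]
      exact σ.injective.eq_iff
  · intro i
    have h := D.ham (σ.symm i)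
    have e : (fun x => decide (σ (D.γ x) ≠ i)) = fun x => decide (D.γ x ≠ σ.symm i) := by
      funext x
      exact decide_eq_decide.mpr (hne _ _)
    rw [e]
    exact h
  · intro O t h
    obtain ⟨i, h1, h2⟩ := D.all O t h
    refine ⟨σ i, ?_, ?_⟩
    · rw [Equiv.symm_apply_apply]; exact h1
    · rw [h2]
      funext x
      apply decide_eq_decide.mpr
      rw [hne, Equiv.symm_apply_apply]
  · rcases D.cst with ⟨j, j', h⟩ | h
    · exact Or.inl ⟨j, j', fun h' => h (σ.injective h')⟩
    · exact Or.inr h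

end Pool.Agent.Helper17.CT
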