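import Pool.Agent.Helper17.CT.Piece

/-!
FS-12: a Hamilton cycle of a piece that uses no port is not a short loop
(project MP_16e137_co, owner helper17).
-/

set_option autoImplicit false

namespace Pool.Agent.Helper17.CT

private theorem tb_eq' (a i : ℕ) : tb a i = a.testBit i := by
  rw [Nat.testBit_eq_decide_div_mod_eq, Bool.eq_iff_iff]
  have h : tb a i = Nat.beq ((a >>> i) % 2) 1 := rfl
  rw [h, Nat.beq_eq, Nat.shiftRight_eq_div_pow, decide_eq_true_eq]

private theorem oth_spec (F : Code) (hF : CodeOK F) (t : Fin (3 * F.n) → Bool) (u : ℕ → Bool)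
    (hu : ∀ x : Fin (3 * F.n), u x = t x)
    (hone : ∀ x, One (t x) (t ((piece F hF).s x)) (t ((piece F hF).s ((piece F hF).s x))))
    (x : Fin (3 * F.n)) (hx : t x = true) :
    ∃ y : Fin (3 * F.n), oth u x = y ∧ t y = true ∧ (y : ℕ) / 3 = (x : ℕ) / 3 ∧
      (∀ z, t z = true → (z = (piece F hF).s x ∨ z = (piece F hF).s ((piece F hF).s x)) → z = y) ∧
      (∀ z, t z = true → (z = (piece F hF).s y ∨ z = (piece F hF).s ((piece F hF).s y)) →
        z = x) := by
  have hnx : ∀ z : Fin (3 * F.n), (((piece F hF).s z : Fin (3 * F.n)) : ℕ) = nx z := fun z => rfl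
  have hdiv : ∀ z, nx z / 3 = z / 3 := by
    intro z
    have h1 : nx z = 3 * (z / 3) + (z % 3 + 1) % 3 := rfl
    omega
  have h1 := hone x
  have h2 : oth u x = cond (t ((piece F hF).s x)) (nx x) (nx (nx x)) := by
    have h3 : u (nx x) = t ((piece F hF).s x) := hu ((piece F hF).s x)
    rw [← h3]
    rfl
  rcases h1 with ⟨a, b, c⟩ | ⟨a, b, c⟩ | ⟨a, b, c⟩
  · rw [hx] at a; exact absurd a (by simp)
  · refine ⟨(piece F hF).s ((piece F hF).s x), ?_, c, ?_, ?_, ?_⟩
    · rw [h2, b, cond_false, hnx, hnx]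
    · rw [hnx, hnx, hdiv, hdiv]
    · rintro z hz (rfl | rfl)
      · rw [hz] at b; exact absurd b (by simp)
      · rfl
    · rintro z hz (rfl | rfl)
      · exact (piece F hF).s3 x
      · rw [(piece F hF).s3 x] at hz
        rw [hz] at b; exact absurd b (by simp)
  · refine ⟨(piece F hF).s x, ?_, b, ?_, ?_, ?_⟩
    · rw [h2, b, cond_true, hnx]
    · rw [hnx, hdiv]
    · rintro z hz (rfl | rfl)
      · rfl
      · rw [hz] at c; exact absurd c (by simp)
    · rintro z hz (rfl | rfl)
      · rw [hz] at c; exact absurd c (by simp)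
      · exact (piece F hF).s3 x

private theorem cl_inv (F : Code) (hF : CodeOK F) (t : Fin (3 * F.n) → Bool)
    (b : Fin F.k → Fin F.k) (hH : HamF (piece F hF) t b)
    (hp : ∀ j, t ((piece F hF).q j) = false) (u : ℕ → Bool)
    (hu : ∀ x : Fin (3 * F.n), u x = t x) (x0 : Fin (3 * F.n)) :
    ∀ (f : ℕ) (x : Fin (3 * F.n)) (cov : ℕ) (V : Fin (3 * F.n) → Prop), t x = true →
      (∀ z z', V z → StepF (piece F hF) t b z z' → V z' ∨ z' = x ∨
        (z = x0 ∧ z' = (piece F hF).e x0)) →
      (x = x0 ∨ V ((piece F hF).e x)) → (x = x0 ∨ V x0) →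
      (∀ z, V z → tb cov ((z : ℕ) / 3) = true) → cov < 2 ^ F.n →
      ∀ r, cl F u x0 f x cov = some r →
        ∃ V' : Fin (3 * F.n) → Prop, V' x0 ∧
          (∀ z z', V' z → StepF (piece F hF) t b z z' → V' z') ∧
          (∀ z, V' z → tb r ((z : ℕ) / 3) = true) ∧ r < 2 ^ F.n := by
  intro f
  induction f with
  | zero =>
    intro x cov V _ _ _ _ _ _ r hr
    have h : cl F u x0 0 x cov = none := rfl
    rw [h] at hr
    exact absurd hr (by simp)
  | succ f ih =>
    intro x cov V hx hcl hex hx0 hbits hcov r hr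
    obtain ⟨y, hy, hty, hdiv, hun, hun'⟩ := oth_spec F hF t u hu hH.one x hx
    have hny : ∀ j, y ≠ (piece F hF).q j := by
      intro j h
      rw [h, hp j] at hty
      exact absurd hty (by simp)
    have he : (((piece F hF).e y : Fin (3 * F.n)) : ℕ) = d6 F.E y := rfl
    have hte : t ((piece F hF).e y) = true := by rw [hH.ecl y hny, hty]
    have hee : (piece F hF).e ((piece F hF).e y) = y := (piece F hF).e2 y hny
    have h : cl F u x0 (f + 1) x cov =
        cond (Nat.beq (d6 F.E (oth u x)) x0) (some (cov ||| (1 <<< ((x : ℕ) / 3))))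
          (cl F u x0 f (d6 F.E (oth u x)) (cov ||| (1 <<< ((x : ℕ) / 3)))) := rfl
    rw [h, hy, ← he] at hr
    have hxn : (x : ℕ) / 3 < F.n := by
      have := x.2
      omega
    have hcov' : (cov ||| (1 <<< ((x : ℕ) / 3))) < 2 ^ F.n := by
      apply Nat.or_lt_two_pow hcov
      rw [Nat.one_shiftLeft]
      exact Nat.pow_lt_pow_right (by norm_num) hxn
    have hbits' : ∀ z : Fin (3 * F.n), (V z ∨ z = x ∨ z = y) →
        tb (cov ||| (1 <<< ((x : ℕ) / 3))) ((z : ℕ) / 3) = true := by
      intro z hz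
      rw [tb_eq', Nat.testBit_or, Bool.or_eq_true]
      rcases hz with hz | rfl | rfl
      · left
        rw [← tb_eq']
        exact hbits z hz
      · right
        rw [Nat.one_shiftLeft, Nat.testBit_two_pow_self]
      · right
        rw [hdiv, Nat.one_shiftLeft, Nat.testBit_two_pow_self]
    have hclos : ∀ z z', (V z ∨ z = x ∨ z = y) → StepF (piece F hF) t b z z' →
        (V z' ∨ z' = x ∨ z' = y) ∨ z' = (piece F hF).e y ∨
          (z = x0 ∧ z' = (piece F hF).e x0) := by
      intro z z' hz hst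
      rcases hz with hz | rfl | rfl
      · rcases hcl z z' hz hst with h1 | h1 | h1
        · exact Or.inl (Or.inl h1)
        · exact Or.inl (Or.inr (Or.inl h1))
        · exact Or.inr (Or.inr h1)
      · obtain ⟨-, hz', h1 | h1 | ⟨-, h1⟩ | ⟨j, h1, -⟩⟩ := hst
        · exact Or.inl (Or.inr (Or.inr (hun z' hz' (Or.inl h1))))
        · exact Or.inl (Or.inr (Or.inr (hun z' hz' (Or.inr h1))))
        · rcases hex with h2 | h2
          · right; right
            exact ⟨h2, by rw [h1, h2]⟩
          · left; left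
            rw [h1]; exact h2
        · rw [h1, hp j] at hx
          exact absurd hx (by simp)
      · obtain ⟨-, hz', h1 | h1 | ⟨-, h1⟩ | ⟨j, h1, -⟩⟩ := hst
        · exact Or.inl (Or.inr (Or.inl (hun' z' hz' (Or.inl h1))))
        · exact Or.inl (Or.inr (Or.inl (hun' z' hz' (Or.inr h1))))
        · exact Or.inr (Or.inl h1)
        · exact absurd h1 (hny j)
    have hV0 : V x0 ∨ x0 = x ∨ x0 = y := by
      rcases hx0 with h1 | h1
      · exact Or.inr (Or.inl h1.symm)
      · exact Or.inl h1
    by_cases hend : (piece F hF).e y = x0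
    · rw [hend, Nat.beq_refl, cond_true] at hr
      have hr' := Option.some.inj hr
      rw [← hr']
      refine ⟨fun z => V z ∨ z = x ∨ z = y, hV0, ?_, hbits', hcov'⟩
      intro z z' hz hst
      rcases hclos z z' hz hst with h1 | h1 | ⟨-, h1⟩
      · exact h1
      · rw [h1, hend]; exact hV0
      · rw [h1, ← hend, hee]
        exact Or.inr (Or.inr rfl)
    · have hb : Nat.beq (((piece F hF).e y : Fin (3 * F.n)) : ℕ) x0 = false := by
        rw [← Bool.not_eq_true, Nat.beq_eq]
        intro h1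
        exact hend (Fin.ext h1)
      rw [hb, cond_false] at hr
      refine ih ((piece F hF).e y) _ (fun z => V z ∨ z = x ∨ z = y) hte ?_ ?_ ?_ hbits' hcov' r hr
      · intro z z' hz hst
        exact hclos z z' hz hst
      · right
        rw [hee]
        exact Or.inr (Or.inr rfl)
      · right
        exact hV0

/-- FS-12: a portless colour pair with a closed loop -/
theorem not_loopy (F : Code) (hF : CodeOK F) (t : Fin (3 * F.n) → Bool) (b : Fin F.k → Fin F.k)
    (hH : HamF (piece F hF) t b) (hp : ∀ j, t ((piece F hF).q j) = false) (G i : ℕ)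
    (hG : ∀ x : Fin (3 * F.n), t x = true ↔ d2 G x ≠ i) : loopy F G i = false := by
  have hn := hF.n2
  obtain ⟨u, hu'⟩ : ∃ u : ℕ → Bool, u = fun x => not (Nat.beq (d2 G x) i) := ⟨_, rfl⟩
  have hu : ∀ x : Fin (3 * F.n), u x = t x := by
    intro x
    rw [hu', Bool.eq_iff_iff, hG x]
    simp only [Bool.not_eq_true', ← Bool.not_eq_true, Nat.beq_eq, ne_eq]
  have h : loopy F G i = match cl F u (cond (u 0) 0 1) F.n (cond (u 0) 0 1) 0 with
      | none => false
      | some cov => not (Nat.beq cov (Nat.pred (Nat.shiftLeft 1 F.n))) := by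
    rw [hu']
    rfl
  obtain ⟨x0, hx0, hx0t⟩ : ∃ x0 : Fin (3 * F.n), (x0 : ℕ) = cond (u 0) 0 1 ∧ t x0 = true := by
    have h0 : u 0 = t ⟨0, by omega⟩ := hu ⟨0, by omega⟩
    rcases hc : t ⟨0, by omega⟩ with _ | _
    · refine ⟨⟨1, by omega⟩, ?_, ?_⟩
      · rw [h0, hc]; rfl
      · have h1 := hH.one ⟨0, by omega⟩
        have hnx : ∀ z : Fin (3 * F.n), (((piece F hF).s z : Fin (3 * F.n)) : ℕ) = nx z :=
          fun z => rfl
        have h2 : (piece F hF).s ⟨0, by omega⟩ = ⟨1, by omega⟩ := by
          apply Fin.ext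
          rw [hnx]
          exact (by decide : nx 0 = 1)
        rcases h1 with ⟨-, a, -⟩ | ⟨a, -, -⟩ | ⟨a, -, -⟩
        · rw [h2] at a; exact a
        · rw [hc] at a; exact absurd a (by simp)
        · rw [hc] at a; exact absurd a (by simp)
    · refine ⟨⟨0, by omega⟩, ?_, hc⟩
      rw [h0, hc]; rfl
  rw [h, ← hx0]
  rcases hr : cl F u x0 F.n x0 0 with _ | r
  · rfl
  · show (!(Nat.beq r (Nat.pred (Nat.shiftLeft 1 F.n)))) = false
    obtain ⟨V, hV0, hVc, hVb, hrlt⟩ := cl_inv F hF t b hH hp u hu x0 F.n x0 0 (fun _ => False)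
      hx0t (fun z z' hz => hz.elim) (Or.inl rfl) (Or.inl rfl) (fun z hz => hz.elim)
      (by positivity) r hr
    have hall : ∀ z, t z = true → V z := by
      intro z hz
      have hc := hH.conn x0 z hx0t hz
      induction hc with
      | refl => exact hV0
      | tail _ hst ih => exact hVc _ _ (ih hst.1) hst
    have hre : r = 2 ^ F.n - 1 := by
      apply Nat.eq_of_testBit_eq
      intro v
      rw [Nat.testBit_two_pow_sub_one]
      by_cases hv : v < F.n
      · rw [decide_eq_true hv]
        have hx : 3 * v < 3 * F.n := by omega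
        have h1 := hH.one ⟨3 * v, hx⟩
        have hb1 : ∀ z : Fin (3 * F.n), (z : ℕ) / 3 = v → t z = true → r.testBit v = true := by
          intro z hz htz
          have := hVb z (hall z htz)
          rw [hz, tb_eq'] at this
          exact this
        have hnx1 : nx (3 * v) = 3 * v + 1 := by
          have h1 : nx (3 * v) = 3 * (3 * v / 3) + (3 * v % 3 + 1) % 3 := rfl
          omega
        rcases h1 with ⟨-, a, -⟩ | ⟨a, -, -⟩ | ⟨a, -, -⟩
        · apply hb1 ((piece F hF).s ⟨3 * v, hx⟩) _ a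
          show nx (3 * v) / 3 = v
          rw [hnx1]; omega
        · exact hb1 ⟨3 * v, hx⟩ (by show 3 * v / 3 = v; omega) a
        · exact hb1 ⟨3 * v, hx⟩ (by show 3 * v / 3 = v; omega) a
      · rw [decide_eq_false hv]
        apply Nat.testBit_eq_false_of_lt
        exact hrlt.trans_le (Nat.pow_le_pow_right (by norm_num) (by omega))
    have h1 : Nat.pred (Nat.shiftLeft 1 F.n) = 2 ^ F.n - 1 := by
      show Nat.pred (1 <<< F.n) = _
      rw [Nat.one_shiftLeft]
      rfl
    rw [h1, ← hre, Nat.beq_refl]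
    rfl

end Pool.Agent.Helper17.CT
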