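import Pool.Agent.Helper17.CT.Piece
import Pool.Agent.Helper30.CT.Trs
import Pool.Agent.Helper31.CT.Sing

/-!
FS-4: a checked system that closes up with `b` to a single cycle is a Hamilton cycle
(project MP_16e137_co, owner helper17).
-/

set_option autoImplicit false

namespace Pool.Agent.Helper17.CT

private theorem one_rot {p q r : Bool} (h : One p q r) : One q r p := by
  rcases h with ⟨a, b, c⟩ | ⟨a, b, c⟩ | ⟨a, b, c⟩
  · exact Or.inr (Or.inr ⟨b, c, a⟩)
  · exact Or.inl ⟨b, c, a⟩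
  · exact Or.inr (Or.inl ⟨b, c, a⟩)

private theorem one_of_cond {p q r : Bool} (h : cond p (cond q (not r) r) (q && r) = true) :
    One p q r := by
  revert p q r
  unfold One
  decide

private theorem stepF_symm {I : Type} {k : ℕ} {F : Inner I k} {t : I → Bool} {b : Fin k → Fin k}
    (hb : ∀ j, b (b j) = j) {x y : I} (h : StepF F t b x y) : StepF F t b y x := by
  obtain ⟨hx, hy, h1 | h1 | ⟨h0, h1⟩ | ⟨j, h0, h1⟩⟩ := h
  · refine ⟨hy, hx, Or.inr (Or.inl ?_)⟩
    rw [h1, F.s3]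
  · refine ⟨hy, hx, Or.inl ?_⟩
    rw [h1, F.s3]
  · refine ⟨hy, hx, Or.inr (Or.inr (Or.inl ⟨?_, ?_⟩))⟩
    · intro j
      rw [h1]
      exact F.eq x h0 j
    · rw [h1, F.e2 x h0]
  · refine ⟨hy, hx, Or.inr (Or.inr (Or.inr ⟨b j, h1, ?_⟩))⟩
    rw [hb, h0]

private theorem cn_stepF {I : Type} {k : ℕ} {F : Inner I k} {t : I → Bool} {b : Fin k → Fin k}
    {x y : I} (h : Cn F t x y) : Relation.ReflTransGen (StepF F t b) x y := by
  induction h with
  | refl => exact Relation.ReflTransGen.refl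
  | tail _ hst ih =>
    obtain ⟨hx, hy, h1 | h1 | h1 | ⟨j, h0, h1⟩⟩ := hst
    · exact ih.tail ⟨hx, hy, Or.inl h1⟩
    · exact ih.tail ⟨hx, hy, Or.inr (Or.inl h1)⟩
    · exact ih.tail ⟨hx, hy, Or.inr (Or.inr (Or.inl h1))⟩
    · have h2 : F.q (id j) = F.q j := rfl
      rw [h1, h2, ← h0]
      exact ih

/-- FS-4 -/
theorem hamF_of_okSy (F : Code) (hF : CodeOK F) (s : Sy) (h : okSy F s = true)
    (b : Fin F.k → Fin F.k) (hbi : ∀ j, b (b j) = j) (B : ℕ) (hB : CodeB b B) (hU : CodeU b s.U)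
    (hs : sing' F.k s.m B s.U = true) :
    HamF (piece F hF) (fun x => tb s.T x) b := by
  have h0 : okSy F s = ((allN (fun v =>
      cond (tb s.T (3 * v)) (cond (tb s.T (3 * v + 1)) (not (tb s.T (3 * v + 2)))
        (tb s.T (3 * v + 2))) (tb s.T (3 * v + 1) && tb s.T (3 * v + 2))) F.n) &&
      ((allN (fun x => cond (Nat.beq (d4 F.P x) 0) ((tb s.T (d6 F.E x)) == tb s.T x)
        (tb s.U (Nat.pred (d4 F.P x)) == tb s.T x)) (3 * F.n)) &&
      (match trs F (fun x => tb s.T x) F.k 0 0 0 with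
        | none => false
        | some (m, cov) => (Nat.beq m s.m && (Nat.beq cov (Nat.pred (Nat.shiftLeft 1 F.n)) &&
          (not (Nat.beq s.U 0) && (Nat.beq (Nat.shiftRight s.U F.k) 0 &&
            Nat.beq (Nat.shiftRight s.T (Nat.mul 3 F.n)) 0))))))) := rfl
  rw [h0, Bool.and_eq_true, Bool.and_eq_true, allN_iff, allN_iff] at h
  obtain ⟨h1, h2, h3⟩ := h
  have hone : ∀ x, One (tb s.T (x : Fin (3 * F.n)))
      (tb s.T ((piece F hF).s x)) (tb s.T ((piece F hF).s ((piece F hF).s x))) := by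
    intro x
    have hnx : ∀ z : ℕ, nx z = 3 * (z / 3) + (z % 3 + 1) % 3 := fun _ => rfl
    have e1 : (((piece F hF).s x : Fin (3 * F.n)) : ℕ) = nx x := rfl
    have e2 : (((piece F hF).s ((piece F hF).s x) : Fin (3 * F.n)) : ℕ) = nx (nx x) := rfl
    rw [e1, e2]
    have hx := x.2
    have hv : (x : ℕ) / 3 < F.n := by omega
    have ho := one_of_cond (h1 _ hv)
    obtain ⟨v, hv'⟩ : ∃ v, v = (x : ℕ) / 3 := ⟨_, rfl⟩
    rw [← hv'] at ho
    rcases (by omega : (x : ℕ) % 3 = 0 ∨ (x : ℕ) % 3 = 1 ∨ (x : ℕ) % 3 = 2) with hm | hm | hm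
    · have a0 : (x : ℕ) = 3 * v := by omega
      have a1 : nx x = 3 * v + 1 := by rw [hnx]; omega
      have a2 : nx (nx x) = 3 * v + 2 := by rw [hnx (nx x), a1]; omega
      rw [a2, a1, a0]
      exact ho
    · have a0 : (x : ℕ) = 3 * v + 1 := by omega
      have a1 : nx x = 3 * v + 2 := by rw [hnx]; omega
      have a2 : nx (nx x) = 3 * v := by rw [hnx (nx x), a1]; omega
      rw [a2, a1, a0]
      exact one_rot ho
    · have a0 : (x : ℕ) = 3 * v + 2 := by omega
      have a1 : nx x = 3 * v := by rw [hnx]; omega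
      have a2 : nx (nx x) = 3 * v + 1 := by rw [hnx (nx x), a1]; omega
      rw [a2, a1, a0]
      exact one_rot (one_rot ho)
  have hecl : ∀ x : Fin (3 * F.n), (∀ j, x ≠ (piece F hF).q j) →
      tb s.T ((piece F hF).e x) = tb s.T x := by
    intro x hx
    have h4 := h2 x x.2
    rw [(port_iff hF x).mp hx, Nat.beq_refl, cond_true, beq_iff_eq] at h4
    exact h4
  have hq : ∀ j : Fin F.k, tb s.T ((piece F hF).q j) = tb s.U j := by
    intro j
    have h4 := h2 (d6 F.Q j) (hF.q j j.2).1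
    rw [(hF.q j j.2).2] at h4
    have h5 : Nat.beq ((j : ℕ) + 1) 0 = false := rfl
    rw [h5, cond_false, beq_iff_eq] at h4
    exact h4.symm
  have huse : ∀ j : Fin F.k, tb s.T ((piece F hF).q j) = true ↔ b j ≠ j := by
    intro j
    rw [hq j]
    exact hU.2 j
  rcases htr : trs F (fun x => tb s.T x) F.k 0 0 0 with _ | ⟨m, cov⟩
  · rw [htr] at h3
    exact absurd h3 (by simp)
  rw [htr] at h3
  simp only [Bool.and_eq_true, Nat.beq_eq] at h3
  obtain ⟨hm, hcov, hU0, -, -⟩ := h3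
  have T := trs_spec F hF (fun x => tb s.T x) ⟨hecl, hone⟩ (fun x => tb s.T x) (fun x => rfl)
    m cov htr
  rw [hm] at T
  have hk15 : F.k ≤ 15 := by
    by_contra hk
    push Not at hk
    have h4 := (hF.q 15 hk).2
    have h5 : d4 F.P (d6 F.Q 15) < 16 := Trs.d4_lt _ _
    omega
  obtain ⟨mf, hmf⟩ : ∃ mf : Fin F.k → Fin F.k, ∀ j, (mf j : ℕ) = d4 s.m j :=
    ⟨fun j => ⟨d4 s.m j, T.lt j⟩, fun j => rfl⟩
  have hmi : ∀ j, mf (mf j) = j := by
    intro j
    apply Fin.ext
    rw [hmf, hmf]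
    exact T.inv j
  have hmne : ∀ j, tb s.T ((piece F hF).q j) = true ↔ mf j ≠ j := by
    intro j
    rw [T.use j, ← hmf j, ne_eq, ne_eq, Fin.ext_iff]
  have hpos := sing'_pos hk15 mf b s.m B s.U hmi hbi (fun j => (hmf j).symm) hB
    ⟨hU.1, fun j => by rw [← hq j]; exact hmne j⟩ hU hs
  -- paths between ports
  have hpath : ∀ i j : Fin F.k, Relation.ReflTransGen (fun x y => y = mf x ∨ y = b x) i j →
      tb s.T ((piece F hF).q i) = true →
      Relation.ReflTransGen (StepF (piece F hF) (fun x => tb s.T x) b) ((piece F hF).q i)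
        ((piece F hF).q j) ∧ tb s.T ((piece F hF).q j) = true := by
    intro i j hij hi
    induction hij with
    | refl => exact ⟨Relation.ReflTransGen.refl, hi⟩
    | @tail j l _ hst ih =>
      obtain ⟨ih1, ih2⟩ := ih
      rcases hst with rfl | rfl
      · have hjl := (hmne j).mp ih2
        have h4 : tb s.T ((piece F hF).q (mf j)) = true := by
          rw [hmne, hmi]
          exact fun h => hjl h.symm
        exact ⟨ih1.trans (cn_stepF (T.con j (mf j) (hmf j) ih2)), h4⟩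
      · have hjl := (huse j).mp ih2
        have h4 : tb s.T ((piece F hF).q (b j)) = true := by
          rw [huse, hbi]
          exact fun h => hjl h.symm
        exact ⟨ih1.tail ⟨ih2, h4, Or.inr (Or.inr (Or.inr ⟨j, rfl, rfl⟩))⟩, h4⟩
  have hport : ∀ x : Fin (3 * F.n), tb s.T x = true → ∃ j : Fin F.k,
      tb s.T ((piece F hF).q j) = true ∧
      Cn (piece F hF) (fun x => tb s.T x) ((piece F hF).q j) x := by
    intro x hx
    apply (T.cv x hx).mp
    have hx' := x.2
    have hv : (x : ℕ) / 3 < F.n := by omega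
    have h4 : Nat.pred (Nat.shiftLeft 1 F.n) = 2 ^ F.n - 1 := by
      show Nat.pred (1 <<< F.n) = _
      rw [Nat.one_shiftLeft]
      rfl
    rw [hcov, h4, Trs.tb_eq, Nat.testBit_two_pow_sub_one, decide_eq_true hv]
  refine ⟨hecl, hone, huse, ?_⟩
  intro x y hx hy
  obtain ⟨i, hi, hix⟩ := hport x hx
  obtain ⟨j, hj, hjy⟩ := hport y hy
  have hsymm : ∀ a c, Relation.ReflTransGen (StepF (piece F hF) (fun x => tb s.T x) b) a c →
      Relation.ReflTransGen (StepF (piece F hF) (fun x => tb s.T x) b) c a := by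
    intro a c hac
    induction hac with
    | refl => exact Relation.ReflTransGen.refl
    | tail _ hst ih => exact Relation.ReflTransGen.head (stepF_symm hbi hst) ih
  refine (hsymm _ _ (cn_stepF hix)).trans (Relation.ReflTransGen.trans ?_ (cn_stepF hjy))
  exact (hpath i j (hpos i j ((hmne i).mp hi) ((hmne j).mp hj)) hi).1

end Pool.Agent.Helper17.CT
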